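import Mathlib
import Pool.Agent.Helper108.KN.Final

/-!
# Long blocks with reversed comparison of least common multiples

For every `θ < 5/9` the reversed inequality `lcm(n+1,…,n+k) < lcm(n-k+1,…,n)` occurs with
`n^θ < k < n` for some `n` in every interval `[N, (r+1) N]`, `N` large, `r` depending on `θ` only.
-/

set_option autoImplicit false

open Filter

namespace Pool.Agent.Results.MP_ff0ae1_nt.LongReversals

open Pool.Agent.Helper108.KN

/-- For every `θ < 5/9` there is `r` such that for all large `N` there are `n`, `k` with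
`N ≤ n ≤ (r+1) N`, `n^θ < k < n` and `lcm(n+1,…,n+k) < lcm(n-k+1,…,n)`. -/
theorem result (θ : ℝ) (hθ : θ < 5 / 9) :
    ∃ r : ℕ, ∀ᶠ N : ℕ in atTop, ∃ n k : ℕ, N ≤ n ∧ n ≤ (r + 1) * N ∧ (n : ℝ) ^ θ < k ∧ k < n ∧
      (Finset.Icc (n + 1) (n + k)).lcm id < (Finset.Icc (n - k + 1) n).lcm id := by
  obtain ⟨r, hr⟩ := Final.eventually_reversed (max θ (1 / 2)) (le_max_right _ _)
    (max_lt hθ (by norm_num))
  refine ⟨r, ?_⟩
  filter_upwards [hr, eventually_ge_atTop 1] with N hN hN1
  obtain ⟨n, k, h1, h2, h3, h4, h5⟩ := hN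
  have hn1 : (1 : ℝ) ≤ n := by exact_mod_cast hN1.trans h1
  refine ⟨n, k, h1, h2, ?_, h4, ?_⟩
  · exact lt_of_le_of_lt (Real.rpow_le_rpow_of_exponent_le hn1 (le_max_left _ _)) h3
  · have e : n - k + k = n := Nat.sub_add_cancel h4.le
    unfold blockLcm at h5
    rwa [e] at h5

end Pool.Agent.Results.MP_ff0ae1_nt.LongReversals
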